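import Mathlib

/-!
Spanning walks in graphs of simple polytopes, definitions.
-/

namespace Pool.Agent.SW82

open SimpleGraph

/-- `P` is a `d`-dimensional convex polytope in `ℝ^d`: the convex hull of a finite set, with
nonempty interior. -/
def IsPolytope (d : ℕ) (P : Set (EuclideanSpace ℝ (Fin d))) : Prop :=
  (∃ s : Finset (EuclideanSpace ℝ (Fin d)),
    P = convexHull ℝ (s : Set (EuclideanSpace ℝ (Fin d)))) ∧ (interior P).Nonempty

/-- The graph of `P`: its vertices are the vertices (extreme points) of `P`, two different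
vertices `u`, `v` are adjacent if the segment `[u,v]` is a face of `P` (the set of all points
of `P` at which some linear functional is maximal on `P`). -/
def polyGraph {d : ℕ} (P : Set (EuclideanSpace ℝ (Fin d))) :
    SimpleGraph (P.extremePoints ℝ) where
  Adj u v := u ≠ v ∧ IsExposed ℝ P
    (segment ℝ (u : EuclideanSpace ℝ (Fin d)) (v : EuclideanSpace ℝ (Fin d)))
  symm := ⟨fun u v h => ⟨h.1.symm, by rw [segment_symm]; exact h.2⟩⟩
  loopless := ⟨fun u h => h.1 rfl⟩

/-- `P` is a simple `d`-polytope: every vertex lies on exactly `d` edges. -/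
def IsSimplePolytope (d : ℕ) (P : Set (EuclideanSpace ℝ (Fin d))) : Prop :=
  IsPolytope d P ∧ ∀ v, ((polyGraph P).neighborSet v).ncard = d

/-- Regular of degree `d` and `d`-edge-connected (directed count of the edges of a cut). -/
structure RegEC {V : Type*} (G : SimpleGraph V) (d : ℕ) : Prop where
  reg : ∀ v, (G.neighborSet v).ncard = d
  cut : ∀ S : Set V, S.Nonempty → Sᶜ.Nonempty →
    d ≤ {e : V × V | e.1 ∈ S ∧ e.2 ∉ S ∧ G.Adj e.1 e.2}.ncard

open Classical in
/-- A closed walk that visits every vertex, and none more than twice. -/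
def HasClosedTwoWalk {V : Type*} (G : SimpleGraph V) : Prop :=
  ∃ (u : V) (c : G.Walk u u), (∀ v, v ∈ c.support) ∧ ∀ v, c.support.tail.count v ≤ 2

end Pool.Agent.SW82
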